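import Mathlib
import Pool.Agent.CBRecip.Short

/-!
MP_6c02f2_nt, tail bound: counting the `n ≤ N` such that `q` does not divide `C(2n,n)`.
-/

set_option autoImplicit false

namespace Pool.Agent.H60.CBTail

open Finset Nat

/-- All truncations of `n` in base `q` lie below one half. -/
def Low (q n : ℕ) : Prop := ∀ m : ℕ, 1 ≤ m → 2 * (n % q ^ m) < q ^ m

theorem low_of_not_dvd {q n : ℕ} (hq : q.Prime) (h : ¬ q ∣ centralBinom n) : Low q n :=
  fun _ hm => CBRecip.two_mul_mod_lt hq h hm

theorem low_div {q n : ℕ} (h : Low q n) : Low q (n / q) := by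
  intro m hm
  have h1 := h (m + 1) (by omega)
  have h2 : n / q % q ^ m = n % q ^ (m + 1) / q := by
    rw [pow_succ', Nat.mod_mul_right_div_self]
  rw [h2]
  have h3 : n % q ^ (m + 1) / q * q ≤ n % q ^ (m + 1) := Nat.div_mul_le_self _ _
  rw [pow_succ] at h1
  have h4 : 2 * (n % q ^ (m + 1) / q) * q < q ^ m * q := by
    rw [pow_succ] at h3 ⊢
    nlinarith
  exact lt_of_mul_lt_mul_right h4 (Nat.zero_le _)

theorem low_mod {q n : ℕ} (hodd : ¬ 2 ∣ q) (h : Low q n) : n % q < (q + 1) / 2 := by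
  have h1 := h 1 le_rfl
  rw [pow_one] at h1
  omega

open Classical in
/-- The integers below `q^k` all whose truncations are small. -/
noncomputable def T (q k : ℕ) : Finset ℕ := (range (q ^ k)).filter (Low q)

theorem card_T {q : ℕ} (hq : 1 ≤ q) (hodd : ¬ 2 ∣ q) (k : ℕ) :
    (T q k).card ≤ ((q + 1) / 2) ^ k := by
  classical
  induction k with
  | zero =>
    rw [T, pow_zero, pow_zero]
    exact (card_filter_le _ _).trans (by simp)
  | succ k ih =>
    have h1 : (T q (k + 1)).card ≤ (range ((q + 1) / 2) ×ˢ T q k).card := by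
      refine Finset.card_le_card_of_injOn (fun n => (n % q, n / q)) ?_ ?_
      · intro n hn
        have hn' := mem_filter.1 (Finset.mem_coe.1 hn)
        rw [mem_range] at hn'
        refine Finset.mem_coe.2 (mem_product.2 ⟨?_, ?_⟩)
        · exact mem_range.2 (low_mod hodd hn'.2)
        · refine mem_filter.2 ⟨mem_range.2 ?_, low_div hn'.2⟩
          rw [Nat.div_lt_iff_lt_mul (by omega), ← pow_succ]
          exact hn'.1
      · intro a _ b _ hab
        simp only [Prod.mk.injEq] at hab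
        rw [← Nat.div_add_mod a q, ← Nat.div_add_mod b q, hab.1, hab.2]
    refine h1.trans ?_
    rw [card_product, card_range, pow_succ']
    exact Nat.mul_le_mul_left _ ih

/-- The number of `n ≤ N` such that the odd prime `q` does not divide `C(2n,n)`. -/
theorem card_bad_le {q N : ℕ} (hq : q.Prime) (h3 : 3 ≤ q) (hN : 1 ≤ N) :
    (((range (N + 1)).filter fun n => ¬ q ∣ centralBinom n).card : ℝ) ≤
      (q : ℝ) * N * Real.exp (-(2 / 5) * (Real.log N / Real.log q)) := by
  classical
  have hodd : ¬ 2 ∣ q := by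
    intro h
    rcases (Nat.dvd_prime hq).1 h with h | h <;> omega
  obtain ⟨k, hk⟩ : ∃ k, k = Nat.log q N + 1 := ⟨_, rfl⟩
  have hk1 : q ^ (k - 1) ≤ N := by
    rw [hk, Nat.add_sub_cancel]
    exact Nat.pow_log_le_self q (by omega)
  have hk2 : N < q ^ k := by
    rw [hk]
    exact Nat.lt_pow_succ_log_self (by omega) N
  have hsub : ((range (N + 1)).filter fun n => ¬ q ∣ centralBinom n) ⊆ T q k := by
    intro n hn
    rw [mem_filter, mem_range] at hn
    refine mem_filter.2 ⟨mem_range.2 (by omega), low_of_not_dvd hq hn.2⟩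
  have h1 : (((range (N + 1)).filter fun n => ¬ q ∣ centralBinom n).card : ℝ) ≤
      (((q + 1) / 2 : ℕ) : ℝ) ^ k := by
    exact_mod_cast (card_le_card hsub).trans (card_T (by omega) hodd k)
  have hqr : (3 : ℝ) ≤ q := by exact_mod_cast h3
  have hNr : (1 : ℝ) ≤ N := by exact_mod_cast hN
  have h2 : (((q + 1) / 2 : ℕ) : ℝ) ≤ 2 / 3 * q := by
    have h4 : 3 * ((q + 1) / 2) ≤ 2 * q := by omega
    have h5 : (3 : ℝ) * (((q + 1) / 2 : ℕ) : ℝ) ≤ 2 * q := by exact_mod_cast h4
    linarith
  have h4 : (q : ℝ) ^ k ≤ q * N := by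
    have h5 : (q : ℝ) ^ k = q * (q : ℝ) ^ (k - 1) := by
      rw [← _root_.pow_succ']
      congr 1
      omega
    rw [h5]
    have h6 : (q : ℝ) ^ (k - 1) ≤ N := by exact_mod_cast hk1
    exact mul_le_mul_of_nonneg_left h6 (by linarith)
  have hlogq : 0 < Real.log q := Real.log_pos (by linarith)
  have h5 : Real.log N / Real.log q ≤ k := by
    rw [div_le_iff₀ hlogq]
    have h6 : (N : ℝ) ≤ (q : ℝ) ^ k := by exact_mod_cast hk2.le
    have h7 := Real.log_le_log (by linarith) h6
    rwa [Real.log_pow] at h7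
  have h6 : (2 / 3 : ℝ) ≤ Real.exp (-(2 / 5)) := by
    rw [Real.exp_neg, le_inv_comm₀ (by norm_num) (Real.exp_pos _)]
    have h7 : Real.exp (2 / 5) ≤ 3 / 2 := by
      have h8 := Real.exp_bound' (x := 2 / 5) (by norm_num) (by norm_num) (n := 4) (by norm_num)
      refine h8.trans ?_
      norm_num [Finset.sum_range_succ, Nat.factorial]
    refine h7.trans (by norm_num)
  calc (((range (N + 1)).filter fun n => ¬ q ∣ centralBinom n).card : ℝ)
      ≤ (((q + 1) / 2 : ℕ) : ℝ) ^ k := h1
    _ ≤ (2 / 3 * q) ^ k := pow_le_pow_left₀ (Nat.cast_nonneg _) h2 k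
    _ = (q : ℝ) ^ k * (2 / 3) ^ k := by rw [mul_pow]; ring
    _ ≤ (q * N) * Real.exp (-(2 / 5) * (Real.log N / Real.log q)) := by
        refine mul_le_mul h4 ?_ (by positivity) (by positivity)
        calc (2 / 3 : ℝ) ^ k ≤ (Real.exp (-(2 / 5))) ^ k :=
              pow_le_pow_left₀ (by norm_num) h6 k
          _ = Real.exp (-(2 / 5) * k) := by
              rw [← Real.exp_nat_mul]; ring_nf
          _ ≤ _ := Real.exp_le_exp.2 (by nlinarith)

end Pool.Agent.H60.CBTail
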