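import Mathlib
import Pool.Agent.CBRecip.Final
import Pool.Agent.EG327.Mertens

/-!
MP_6c02f2_nt, tail bound: `f(n)` is at most `log (loglog n / log q) + O(1)`, `q` the least odd
prime not dividing `C(2n,n)`.
-/

set_option autoImplicit false

namespace Pool.Agent.H60.CBTail

open Finset Nat

/-- The sum of `1/p` over the primes `p < n` not dividing `C(2n,n)`. -/
noncomputable def fs (n : ℕ) : ℝ :=
  ∑ p ∈ (range n).filter (fun p => p.Prime ∧ ¬ p ∣ centralBinom n), (1 : ℝ) / (p : ℝ)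

theorem fs_le (n : ℕ) : fs n ≤ n := by
  rw [fs]
  have h2 : ∀ p ∈ (range n).filter (fun p => p.Prime ∧ ¬ p ∣ centralBinom n),
      (1 : ℝ) / (p : ℝ) ≤ 1 := by
    intro p hp
    rw [mem_filter] at hp
    have : (1 : ℝ) ≤ p := by exact_mod_cast hp.2.1.one_lt.le
    rw [div_le_one (by linarith)]
    exact this
  refine (Finset.sum_le_card_nsmul _ _ _ h2).trans ?_
  rw [nsmul_eq_mul, mul_one]
  have h3 := (Finset.card_filter_le (range n) (fun p => p.Prime ∧ ¬ p ∣ centralBinom n))
  rw [card_range] at h3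
  exact_mod_cast h3

/-- Mertens' bound for an interval, with the constant one in front of the logarithm. -/
theorem interval {q y : ℕ} (hq : 2 ≤ q) (hqy : q ≤ y) :
    EG327.lam (EG327.PP y \ EG327.PP q) ≤
      Real.log (Real.log y) - Real.log (Real.log q) + 10 := by
  have h1 := EG327.lam_PP_le y (hq.trans hqy)
  have h2 := EG327.le_lam_PP q hq
  have h3 : EG327.lam (EG327.PP y \ EG327.PP q) + EG327.lam (EG327.PP q) =
      EG327.lam (EG327.PP y) :=
    Finset.sum_sdiff (EG327.PP_mono hqy)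
  linarith

/-- Either `f(n)` is bounded, or it is bounded in terms of an odd prime `q ≤ log n` which does
not divide `C(2n,n)`. -/
theorem least : ∃ C : ℝ, 0 ≤ C ∧ ∀ n : ℕ, 16 ≤ n → fs n ≤ C ∨
    ∃ q : ℕ, q.Prime ∧ 3 ≤ q ∧ (q : ℝ) ≤ Real.log n ∧ ¬ q ∣ centralBinom n ∧
      fs n ≤ Real.log (Real.log (Real.log n)) - Real.log (Real.log q) + C := by
  classical
  obtain ⟨C, hC⟩ := CBRecip.main_eps (ε := 1) one_pos
  have hC0 : 0 ≤ C := by
    refine le_trans ?_ (hC 0)
    simp
  refine ⟨C + 11, by linarith, fun n hn => ?_⟩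
  obtain ⟨hlogn, hloglog⟩ := CBRecip.loglog_ge hn
  have hCn := hC n
  rw [Real.rpow_one] at hCn
  set S := (range n).filter (fun p => p.Prime ∧ ¬ p ∣ centralBinom n ∧
    (p : ℝ) ≤ Real.log n) with hS
  have hsplit : fs n = ∑ p ∈ S, (1 : ℝ) / (p : ℝ) +
      ∑ p ∈ (range n).filter (fun p => p.Prime ∧ ¬ p ∣ centralBinom n ∧
        Real.log n < (p : ℝ)), (1 : ℝ) / (p : ℝ) := by
    rw [fs, ← Finset.sum_filter_add_sum_filter_not _ (fun p : ℕ => (p : ℝ) ≤ Real.log n)]
    congr 1
    · rw [hS, Finset.filter_filter]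
      simp only [and_assoc]
    · rw [Finset.filter_filter]
      simp only [and_assoc, not_le]
  rcases S.eq_empty_or_nonempty with h0 | hne
  · left
    rw [hsplit, h0, Finset.sum_empty]
    linarith
  right
  obtain ⟨q, hq⟩ : ∃ q, q = S.min' hne := ⟨_, rfl⟩
  have hqS : q ∈ S := by rw [hq]; exact S.min'_mem hne
  have hmin : ∀ p ∈ S, q ≤ p := fun p hp => by rw [hq]; exact S.min'_le p hp
  have hqS' := hqS
  rw [hS, mem_filter, mem_range] at hqS'
  obtain ⟨hqn, hqp, hqc, hql⟩ := hqS'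
  have hq3 : 3 ≤ q := by
    have h2 := hqp.two_le
    rcases h2.eq_or_lt with h | h
    · exfalso
      apply hqc
      rw [← h]
      exact Nat.two_dvd_centralBinom_of_one_le (by omega)
    · exact h
  refine ⟨q, hqp, hq3, hql, hqc, ?_⟩
  obtain ⟨y, hy⟩ : ∃ y, y = ⌊Real.log n⌋₊ := ⟨_, rfl⟩
  have hqy : q ≤ y := by rw [hy]; exact Nat.le_floor hql
  have hyl : (y : ℝ) ≤ Real.log n := by rw [hy]; exact Nat.floor_le (by linarith)
  have hsub : S ⊆ insert q (EG327.PP y \ EG327.PP q) := by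
    intro p hp
    have hp' := hp
    rw [hS, mem_filter, mem_range] at hp'
    obtain ⟨hpn, hpp, hpc, hpl⟩ := hp'
    have hqp' := hmin p hp
    rw [mem_insert]
    rcases hqp'.eq_or_lt with h | h
    · left; exact h.symm
    · right
      rw [mem_sdiff, EG327.mem_PP, EG327.mem_PP]
      refine ⟨⟨by omega, ?_, hpp⟩, fun h' => by omega⟩
      rw [hy]
      exact Nat.le_floor hpl
  have hsum : ∑ p ∈ S, (1 : ℝ) / (p : ℝ) ≤ 1 + EG327.lam (EG327.PP y \ EG327.PP q) := by
    refine (Finset.sum_le_sum_of_subset_of_nonneg hsub fun _ _ _ => by positivity).trans ?_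
    rw [Finset.sum_insert]
    · have h3 : (3 : ℝ) ≤ q := by exact_mod_cast hq3
      have h4 : (1 : ℝ) / q ≤ 1 := by
        rw [div_le_one (by linarith)]
        linarith
      rw [EG327.lam]
      linarith
    · rw [mem_sdiff, EG327.mem_PP, EG327.mem_PP]
      intro h'
      exact h'.2 ⟨hq3, le_rfl, hqp⟩
  have hint := interval (by omega : 2 ≤ q) hqy
  have hyr : (3 : ℝ) ≤ y := by exact_mod_cast hq3.trans hqy
  have hly : Real.log (Real.log y) ≤ Real.log (Real.log (Real.log n)) := by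
    refine Real.log_le_log (Real.log_pos (by linarith)) ?_
    exact Real.log_le_log (by linarith) hyl
  rw [hsplit]
  linarith

end Pool.Agent.H60.CBTail
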