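import Mathlib
import Pool.Agent.H60.CBTail.Count
import Pool.Agent.H60.CBTail.Least

/-!
MP_6c02f2_nt, tail bound: at most `N^(1 - K / loglog N)` integers `n ≤ N` satisfy
`f(n) > log K + C`.
-/

set_option autoImplicit false

namespace Pool.Agent.H60.CBTail

open Finset Nat

theorem exp_three : (20 : ℝ) ≤ Real.exp 3 := by
  have h := Real.exp_one_gt_d9
  have h2 : Real.exp 3 = Real.exp 1 ^ 3 := by
    rw [← Real.exp_nat_mul]; norm_num
  rw [h2]
  have h3 : (2.7182818283 : ℝ) ^ 3 ≤ Real.exp 1 ^ 3 := pow_le_pow_left₀ (by norm_num) h.le 3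
  refine le_trans ?_ h3
  norm_num

theorem tail : ∃ C : ℝ, ∀ N : ℕ, 16 ≤ N → ∀ K : ℝ, 1 ≤ K →
    (((range (N + 1)).filter fun n => Real.log K + C < fs n).card : ℝ) ≤
      (N : ℝ) ^ (1 - K / Real.log (Real.log N)) := by
  classical
  obtain ⟨C, hC0, hC⟩ := least
  refine ⟨C + 16, fun N hN K hK => ?_⟩
  obtain ⟨hlogN, hloglogN⟩ := CBRecip.loglog_ge hN
  have hNr : (16 : ℝ) ≤ N := by exact_mod_cast hN
  have hlogK : 0 ≤ Real.log K := Real.log_nonneg hK
  have he := exp_three
  obtain ⟨L, hL⟩ : ∃ L, L = Real.log (Real.log N) := ⟨_, rfl⟩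
  obtain ⟨E, hE⟩ : ∃ E, E = Real.exp 3 := ⟨_, rfl⟩
  rw [← hL] at hloglogN ⊢
  rw [← hE] at he
  obtain ⟨R, hR⟩ : ∃ R, R = L / (K * E) := ⟨_, rfl⟩
  have hL0 : 0 < L := by linarith
  have hK0 : 0 < K := by linarith
  have hE0 : 0 < E := by linarith
  have hR0 : 0 < R := by rw [hR]; positivity
  -- every exceptional `n` has a small bad prime
  have hsub : ((range (N + 1)).filter fun n => Real.log K + (C + 16) < fs n) ⊆
      ((Icc 3 ⌊Real.exp R⌋₊).filter Nat.Prime).biUnion
        (fun q => (range (N + 1)).filter fun n => ¬ q ∣ centralBinom n) := by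
    intro n hn
    rw [mem_filter, mem_range] at hn
    obtain ⟨hnN, hnf⟩ := hn
    have hn16 : 16 ≤ n := by
      by_contra hcon
      have h1 := fs_le n
      have h2 : (n : ℝ) ≤ 16 := by exact_mod_cast (by omega : n ≤ 16)
      linarith
    rcases hC n hn16 with h | ⟨q, hqp, hq3, hql, hqc, hqf⟩
    · linarith
    rw [mem_biUnion]
    refine ⟨q, ?_, mem_filter.2 ⟨mem_range.2 hnN, hqc⟩⟩
    rw [mem_filter, mem_Icc]
    refine ⟨⟨hq3, ?_⟩, hqp⟩
    obtain ⟨hlogn, hloglogn⟩ := CBRecip.loglog_ge hn16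
    have hnr : (16 : ℝ) ≤ n := by exact_mod_cast hn16
    have hnNr : (n : ℝ) ≤ N := by exact_mod_cast (by omega : n ≤ N)
    have hqr : (3 : ℝ) ≤ q := by exact_mod_cast hq3
    have hlogq : 0 < Real.log q := Real.log_pos (by linarith)
    have h1 : Real.log (Real.log (Real.log n)) ≤ Real.log L := by
      rw [hL]
      refine Real.log_le_log (by linarith) (Real.log_le_log (by linarith) ?_)
      exact Real.log_le_log (by linarith) hnNr
    have h2 : Real.log (Real.log q) ≤ Real.log R := by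
      rw [hR, Real.log_div hL0.ne' (by positivity), Real.log_mul hK0.ne' hE0.ne', hE,
        Real.log_exp]
      linarith
    have h3 : Real.log q ≤ R := (Real.log_le_log_iff hlogq hR0).1 h2
    refine Nat.le_floor ?_
    rw [← Real.log_le_iff_le_exp (by linarith)]
    exact h3
  -- the sum over the bases
  have hM : ∀ q ∈ (Icc 3 ⌊Real.exp R⌋₊).filter Nat.Prime,
      (((range (N + 1)).filter fun n => ¬ q ∣ centralBinom n).card : ℝ) ≤
        Real.exp R * N * Real.exp (-(2 / 5) * (Real.log N / R)) := by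
    intro q hq
    rw [mem_filter, mem_Icc] at hq
    obtain ⟨⟨hq3, hqR⟩, hqp⟩ := hq
    have hqr : (3 : ℝ) ≤ q := by exact_mod_cast hq3
    have hlogq : 0 < Real.log q := Real.log_pos (by linarith)
    have h1 : (q : ℝ) ≤ Real.exp R := by
      have h2 : (q : ℝ) ≤ (⌊Real.exp R⌋₊ : ℝ) := by exact_mod_cast hqR
      exact h2.trans (Nat.floor_le (Real.exp_pos R).le)
    have h2 : Real.log q ≤ R := by
      rw [Real.log_le_iff_le_exp (by linarith)]
      exact h1
    refine (card_bad_le hqp hq3 (by omega : 1 ≤ N)).trans ?_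
    have h3 : Real.log N / R ≤ Real.log N / Real.log q :=
      div_le_div_of_nonneg_left (by linarith) hlogq h2
    have h4 : Real.exp (-(2 / 5) * (Real.log N / Real.log q)) ≤
        Real.exp (-(2 / 5) * (Real.log N / R)) := Real.exp_le_exp.2 (by linarith)
    have h5 : (q : ℝ) * N ≤ Real.exp R * N := mul_le_mul_of_nonneg_right h1 (by linarith)
    exact mul_le_mul h5 h4 (Real.exp_pos _).le (by positivity)
  have h1 : (((range (N + 1)).filter fun n => Real.log K + (C + 16) < fs n).card : ℝ) ≤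
      Real.exp R * (Real.exp R * N * Real.exp (-(2 / 5) * (Real.log N / R))) := by
    have h2 := (card_le_card hsub).trans card_biUnion_le
    have h3 : (((range (N + 1)).filter fun n => Real.log K + (C + 16) < fs n).card : ℝ) ≤
        ∑ q ∈ (Icc 3 ⌊Real.exp R⌋₊).filter Nat.Prime,
          (((range (N + 1)).filter fun n => ¬ q ∣ centralBinom n).card : ℝ) := by
      exact_mod_cast h2
    refine (h3.trans (Finset.sum_le_card_nsmul _ _ _ hM)).trans ?_
    rw [nsmul_eq_mul]
    refine mul_le_mul_of_nonneg_right ?_ (by positivity)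
    have h4 : ((Icc 3 ⌊Real.exp R⌋₊).filter Nat.Prime).card ≤ ⌊Real.exp R⌋₊ := by
      refine (card_filter_le _ _).trans ?_
      rw [Nat.card_Icc]
      omega
    have h5 : (((Icc 3 ⌊Real.exp R⌋₊).filter Nat.Prime).card : ℝ) ≤ (⌊Real.exp R⌋₊ : ℝ) := by
      exact_mod_cast h4
    exact h5.trans (Nat.floor_le (Real.exp_pos R).le)
  refine h1.trans ?_
  have hNe : (N : ℝ) = Real.exp (Real.log N) := (Real.exp_log (by linarith)).symm
  have h2 : Real.exp R * (Real.exp R * N * Real.exp (-(2 / 5) * (Real.log N / R))) =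
      Real.exp (2 * R + Real.log N + -(2 / 5) * (Real.log N / R)) := by
    conv_lhs => rw [hNe]
    rw [Real.log_exp, ← Real.exp_add, ← Real.exp_add, ← Real.exp_add]
    congr 1
    ring
  rw [h2, Real.rpow_def_of_pos (by linarith : (0 : ℝ) < N), Real.exp_le_exp]
  have h3 : Real.log N / R = E * (K * Real.log N / L) := by
    rw [hR]
    field_simp
  have h4 : 2 * R ≤ L / 10 := by
    rw [hR]
    have h5 : L / (K * E) ≤ L / 20 := by
      refine div_le_div_of_nonneg_left hL0.le (by norm_num) ?_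
      nlinarith
    linarith
  -- `L ^ 2 ≤ 2 log N`
  have h5 : L ^ 2 ≤ 2 * Real.log N := by
    have h6 : Real.log N = Real.exp L := by
      rw [hL, Real.exp_log (by linarith)]
    rw [h6]
    have := Real.quadratic_le_exp_of_nonneg hL0.le
    nlinarith
  have h6 : L / 2 ≤ K * Real.log N / L := by
    rw [le_div_iff₀ hL0]
    nlinarith
  have h7 : 0 ≤ K * Real.log N / L := by positivity
  have h8 : Real.log N * (1 - K / L) = Real.log N - K * Real.log N / L := by
    field_simp
  rw [h8, h3]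
  nlinarith

end Pool.Agent.H60.CBTail
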